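import Mathlib

namespace MP62401a.Alt

/-- The alternating divisor sum function `σ̃`: it is multiplicative with
`σ̃(p^r) = p^r - p^(r-1) + p^(r-2) - ... + (-1)^r`, that is
`σ̃(n) = ∏_{p^r ∥ n} ∑_{j=0}^{r} (-1)^j p^(r-j)`. -/
def altSigma (n : ℕ) : ℤ :=
  ∏ p ∈ n.primeFactors, ∑ j ∈ Finset.range (n.factorization p + 1),
    (-1 : ℤ) ^ j * (p : ℤ) ^ (n.factorization p - j)

theorem altSigma_eq (n : ℕ) :
    altSigma n = n.factorization.prod fun p r =>
      ∑ j ∈ Finset.range (r + 1), (-1 : ℤ) ^ j * (p : ℤ) ^ (r - j) := by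
  rfl

theorem altSigma_mul {m n : ℕ} (h : Nat.Coprime m n) :
    altSigma (m * n) = altSigma m * altSigma n := by
  rw [altSigma_eq, altSigma_eq, altSigma_eq, Nat.factorization_mul_of_coprime h]
  exact Finsupp.prod_add_index_of_disjoint
    (by simpa using h.disjoint_primeFactors) _

theorem altSigma_prime_pow {p : ℕ} (hp : p.Prime) (r : ℕ) :
    altSigma (p ^ r) = ∑ j ∈ Finset.range (r + 1), (-1 : ℤ) ^ j * (p : ℤ) ^ (r - j) := by
  rw [altSigma_eq, hp.factorization_pow]
  rw [Finsupp.prod_single_index]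
  simp

theorem altSigma_prime {p : ℕ} (hp : p.Prime) : altSigma p = (p : ℤ) - 1 := by
  have h := altSigma_prime_pow hp 1
  simp [Finset.sum_range_succ] at h
  rw [h]; ring

/-- There is a `σ̃`-`4`-perfect number, so the answer to Q1 is yes: some integer `k ≥ 4`
admits a positive integer `n` with `k σ̃(n) = n`.  The witness is `k = 4` and
`n = 2^13 * 3^8 * 5 * 7^2 * 11 * 13 * 19 * 23 * 37 * 43^2 * 127 * 139`. -/
theorem result : ∃ k : ℕ, 4 ≤ k ∧ ∃ n : ℕ, 0 < n ∧ (k : ℤ) * altSigma n = (n : ℤ) := by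
  refine ⟨4, le_refl _,
    2 ^ 13 * 3 ^ 8 * 5 * 7 ^ 2 * 11 * 13 * 19 * 23 * 37 * 43 ^ 2 * 127 * 139, by norm_num, ?_⟩
  rw [altSigma_mul (by norm_num), altSigma_mul (by norm_num), altSigma_mul (by norm_num),
    altSigma_mul (by norm_num), altSigma_mul (by norm_num), altSigma_mul (by norm_num),
    altSigma_mul (by norm_num), altSigma_mul (by norm_num), altSigma_mul (by norm_num),
    altSigma_mul (by norm_num), altSigma_mul (by norm_num),
    altSigma_prime_pow (by norm_num : Nat.Prime 2), altSigma_prime_pow (by norm_num : Nat.Prime 3),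
    altSigma_prime_pow (by norm_num : Nat.Prime 7), altSigma_prime_pow (by norm_num : Nat.Prime 43),
    altSigma_prime (by norm_num : Nat.Prime 5), altSigma_prime (by norm_num : Nat.Prime 11),
    altSigma_prime (by norm_num : Nat.Prime 13), altSigma_prime (by norm_num : Nat.Prime 19),
    altSigma_prime (by norm_num : Nat.Prime 23), altSigma_prime (by norm_num : Nat.Prime 37),
    altSigma_prime (by norm_num : Nat.Prime 127), altSigma_prime (by norm_num : Nat.Prime 139)]
  simp only [Finset.sum_range_succ, Finset.sum_range_zero]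
  norm_num

end MP62401a.Alt
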